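import Pool.Agent.Y163.MW.Base

/-!
# Project MW, job B1: the dimension of the kernel of the lowering operator
-/

set_option autoImplicit false

open Module

namespace Pool.Agent.Y954.MW

open Pool.Agent.Y163.MW

universe u v

section

variable {K : Type u} [Field K] {V : Type v} [AddCommGroup V] [Module K V]
  {ι : Type} (b : Basis ι K V) (a : ι → ℤ)

/-- the span of the basis vectors whose weights are in `S` -/
def W (S : Set ℤ) : Submodule K V := Submodule.span K (b '' {i | a i ∈ S})

theorem mem_W (S : Set ℤ) (x : V) : x ∈ W b a S ↔ ∀ i, a i ∉ S → b.repr x i = 0 := by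
  rw [W, b.mem_span_image]
  constructor
  · intro h i hi
    by_contra h0
    exact hi (h (Finsupp.mem_support_iff.2 h0))
  · intro h i hi
    by_contra h0
    exact (Finsupp.mem_support_iff.1 hi) (h i h0)

theorem b_mem_W (S : Set ℤ) (i : ι) (hi : a i ∈ S) : b i ∈ W b a S :=
  Submodule.subset_span ⟨i, hi, rfl⟩

theorem W_mono {S T : Set ℤ} (h : S ⊆ T) : W b a S ≤ W b a T :=
  Submodule.span_mono (Set.image_mono fun _ hi => h hi)

theorem finrank_W [Fintype ι] (S : Set ℤ) : finrank K (W b a S) = Nat.card {i : ι // a i ∈ S} := by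
  have hli : LinearIndependent K (fun i : {i : ι // a i ∈ S} => b i) :=
    b.linearIndependent.comp _ Subtype.val_injective
  have h1 := Module.finrank_eq_nat_card_basis (Basis.span hli)
  have h2 : Set.range (fun i : {i : ι // a i ∈ S} => b i) = b '' {i | a i ∈ S} := by
    ext x
    constructor
    · rintro ⟨i, rfl⟩
      exact ⟨i.1, i.2, rfl⟩
    · rintro ⟨i, hi, rfl⟩
      exact ⟨⟨i, hi⟩, rfl⟩
  rw [h2] at h1
  exact h1

theorem W_inf (S T : Set ℤ) (h : Disjoint S T) : W b a S ⊓ W b a T = ⊥ := by
  rw [eq_bot_iff]
  rintro x ⟨h1, h2⟩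
  rw [SetLike.mem_coe, mem_W] at h1 h2
  rw [Submodule.mem_bot]
  apply b.ext_elem
  intro i
  rw [map_zero, Finsupp.zero_apply]
  by_cases hi : a i ∈ S
  · exact h2 i (fun ht => Set.disjoint_left.1 h hi ht)
  · exact h1 i hi

theorem W_sup (S T : Set ℤ) : W b a S ⊔ W b a T = W b a (S ∪ T) := by
  rw [W, W, W, ← Submodule.span_union, ← Set.image_union]
  rfl

theorem W_univ : W b a Set.univ = ⊤ := by
  rw [eq_top_iff]
  intro x _
  rw [mem_W]
  intro i hi
  exact absurd (Set.mem_univ _) hi

/-- eigenvectors of `h` -/
theorem mem_W_single [CharZero K] (h : Module.End K V) (hw : ∀ i, h (b i) = (a i : K) • b i)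
    (r : ℤ) (x : V) : x ∈ W b a {r} ↔ h x = (r : K) • x := by
  have hrep : ∀ y i, b.repr (h y) i = (a i : K) * b.repr y i := by
    intro y i
    have : (b.coord i) ∘ₗ h = (a i : K) • b.coord i := by
      apply b.ext
      intro j
      rw [LinearMap.comp_apply, hw, map_smul, LinearMap.smul_apply, Basis.coord_apply,
        Basis.repr_self]
      by_cases hij : j = i
      · subst hij; rfl
      · rw [Finsupp.single_eq_of_ne' hij]; simp
    have h2 := congrArg (fun f => f y) this
    simpa using h2
  rw [mem_W]
  constructor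
  · intro hx
    apply b.ext_elem
    intro i
    rw [hrep, map_smul, Finsupp.smul_apply, smul_eq_mul]
    by_cases hi : a i = r
    · rw [hi]
    · rw [hx i hi]; simp
  · intro hx i hi
    have h1 := hrep x i
    rw [hx, map_smul, Finsupp.smul_apply, smul_eq_mul] at h1
    have h2 : ((r : K) - (a i : K)) * b.repr x i = 0 := by rw [sub_mul, h1, sub_self]
    rcases mul_eq_zero.1 h2 with h3 | h3
    · exfalso
      apply hi
      rw [sub_eq_zero] at h3
      exact (Int.cast_injective h3).symm
    · exact h3

end

theorem stB1 (hL : StL.{u, v}) : StB1.{u, v} := by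
  intro K _ _ V _ _ N ι _ b a e h H
  classical
  have : Module.Finite K V := Module.Finite.of_basis b
  -- the lowering operator
  have hNh : ∀ x, h (N x) = N (h x) + (-2 : K) • N x := by
    intro x
    have h1 := congrArg (fun f : Module.End K V => f x) H.hN
    simp only [LinearMap.sub_apply, Module.End.mul_apply, LinearMap.smul_apply] at h1
    rw [← h1]; abel
  have hN1 : ∀ (r : ℤ) (x : V), h x = (r : K) • x → h (N x) = ((r - 2 : ℤ) : K) • N x := by
    intro r x hx
    rw [hNh, hx, map_smul, ← add_smul]
    congr 1
    push_cast; ring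
  have hNk : ∀ (k : ℕ) (r : ℤ) (x : V), h x = (r : K) • x →
      h ((N ^ k) x) = ((r - 2 * k : ℤ) : K) • (N ^ k) x := by
    intro k
    induction k with
    | zero => intro r x hx; simpa using hx
    | succ k ih =>
      intro r x hx
      rw [pow_succ', Module.End.mul_apply]
      have := hN1 _ _ (ih r x hx)
      rw [this]
      congr 2
      push_cast; ring
  have hNW : ∀ i, N (b i) ∈ W b a {a i - 2} := by
    intro i
    rw [mem_W_single b a h H.wt]
    exact hN1 (a i) (b i) (H.wt i)
  -- the image of the non-positive part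
  have hQ : Submodule.map N (W b a (Set.Iic 0)) = W b a (Set.Iic (-2)) := by
    apply le_antisymm
    · rw [W, Submodule.map_span_le]
      rintro _ ⟨i, hi, rfl⟩
      refine W_mono b a ?_ (hNW i)
      intro r hr
      rw [Set.mem_singleton_iff] at hr
      have : a i ≤ 0 := hi
      rw [Set.mem_Iic]
      omega
    · rw [W, Submodule.span_le]
      rintro _ ⟨j, hj, rfl⟩
      have hj' : a j ≤ -2 := hj
      obtain ⟨m, hm⟩ : ∃ m : ℕ, a j = -(m : ℤ) := ⟨(-a j).toNat, by omega⟩
      obtain ⟨x, hx, hNx⟩ := (hL K V N ι b a e h H m).2 (b j) (by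
        rw [H.wt, hm]; push_cast; rfl)
      have hx' : h x = ((m : ℤ) : K) • x := by rw [hx]; push_cast; rfl
      have hm2 : 2 ≤ m := by omega
      obtain ⟨k, rfl⟩ : ∃ k, m = k + 1 := ⟨m - 1, by omega⟩
      refine ⟨(N ^ k) x, ?_, ?_⟩
      · have h3 := hNk k _ x hx'
        rw [← mem_W_single b a h H.wt] at h3
        refine W_mono b a ?_ h3
        intro r hr
        rw [Set.mem_singleton_iff] at hr
        rw [Set.mem_Iic]
        push_cast at hr
        omega
      · rw [← hNx, pow_succ', Module.End.mul_apply]
  have hP : Submodule.map N (W b a (Set.Ici 1)) ≤ W b a (Set.Ici (-1)) := by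
    rw [W, Submodule.map_span_le]
    rintro _ ⟨i, hi, rfl⟩
    refine W_mono b a ?_ (hNW i)
    intro r hr
    rw [Set.mem_singleton_iff] at hr
    have : 1 ≤ a i := hi
    rw [Set.mem_Ici]
    omega
  -- projections to the weight spaces
  let π : ℤ → Module.End K V := fun r => b.constr K fun i => if a i = r then b i else 0
  have hπb : ∀ r i, π r (b i) = if a i = r then b i else 0 := fun r i => b.constr_basis K _ i
  have hπW : ∀ r x, π r x ∈ W b a {r} := by
    intro r x
    have : Submodule.map (π r) ⊤ ≤ W b a {r} := by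
      rw [← b.span_eq, Submodule.map_span_le]
      rintro _ ⟨i, rfl⟩
      rw [hπb]
      split_ifs with hi
      · exact b_mem_W b a _ i hi
      · exact Submodule.zero_mem _
    exact this ⟨x, trivial, rfl⟩
  have hπid : ∀ r x, x ∈ W b a {r} → π r x = x := by
    intro r x hx
    have : ∀ y ∈ Submodule.span K (b '' {i | a i ∈ ({r} : Set ℤ)}), π r y = y := by
      intro y hy
      induction hy using Submodule.span_induction with
      | mem z hz =>
        obtain ⟨i, hi, rfl⟩ := hz
        have hi' : a i = r := hi
        rw [hπb, if_pos hi']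
      | zero => simp
      | add y z _ _ hy hz => rw [map_add, hy, hz]
      | smul c y _ hy => rw [map_smul, hy]
    exact this x hx
  have hπ0 : ∀ r s x, r ≠ s → x ∈ W b a {s} → π r x = 0 := by
    intro r s x hrs hx
    have : ∀ y ∈ Submodule.span K (b '' {i | a i ∈ ({s} : Set ℤ)}), π r y = 0 := by
      intro y hy
      induction hy using Submodule.span_induction with
      | mem z hz =>
        obtain ⟨i, hi, rfl⟩ := hz
        have hi' : a i = s := hi
        rw [hπb, if_neg]
        rw [hi']; exact fun hh => hrs hh.symm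
      | zero => simp
      | add y z _ _ hy hz => rw [map_add, hy, hz, add_zero]
      | smul c y _ hy => rw [map_smul, hy, smul_zero]
    exact this x hx
  have hNπ : ∀ r x, N (π r x) = π (r - 2) (N x) := by
    intro r x
    have : N ∘ₗ π r = π (r - 2) ∘ₗ N := by
      apply b.ext
      intro i
      rw [LinearMap.comp_apply, LinearMap.comp_apply, hπb]
      split_ifs with hi
      · rw [hπid (r - 2) _ (by rw [← hi]; exact hNW i)]
      · rw [map_zero, hπ0 (r - 2) (a i - 2) _ (by omega) (hNW i)]
    exact congrArg (fun f => f x) this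
  have hrepr : ∀ r x i, a i = r → b.repr (π r x) i = b.repr x i := by
    intro r x i hi
    have : b.coord i ∘ₗ π r = b.coord i := by
      apply b.ext
      intro j
      rw [LinearMap.comp_apply, hπb]
      split_ifs with hj
      · rfl
      · rw [map_zero, Basis.coord_apply, Basis.repr_self, Finsupp.single_eq_of_ne']
        rintro rfl
        exact hj hi
    exact congrArg (fun f => f x) this
  -- injectivity on the positive part
  have hinj : ∀ x ∈ W b a (Set.Ici 1), N x = 0 → x = 0 := by
    intro x hx hNx
    have hz : ∀ r : ℤ, 1 ≤ r → π r x = 0 := by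
      intro r hr
      obtain ⟨m, rfl⟩ : ∃ m : ℕ, r = ((m + 1 : ℕ) : ℤ) := ⟨(r - 1).toNat, by omega⟩
      apply (hL K V N ι b a e h H (m + 1)).1
      · have := (mem_W_single b a h H.wt _ _).1 (hπW ((m + 1 : ℕ) : ℤ) x)
        rw [this]; push_cast; rfl
      · rw [pow_succ, Module.End.mul_apply, hNπ, hNx, map_zero, map_zero]
    apply b.ext_elem
    intro i
    rw [map_zero, Finsupp.zero_apply]
    by_cases hi : 1 ≤ a i
    · rw [← hrepr (a i) x i rfl, hz _ hi, map_zero, Finsupp.zero_apply]
    · exact (mem_W b a _ x).1 hx i hi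
  have hinj' : Function.Injective (N.domRestrict (W b a (Set.Ici 1))) := by
    rw [← LinearMap.ker_eq_bot, LinearMap.ker_eq_bot']
    rintro ⟨x, hx⟩ h0
    exact Subtype.ext (hinj x hx h0)
  have hfP : finrank K (Submodule.map N (W b a (Set.Ici 1))) =
      finrank K (W b a (Set.Ici 1)) := by
    rw [← LinearMap.range_domRestrict]
    exact LinearMap.finrank_range_of_inj hinj'
  -- the dimension of the range
  have hrange : finrank K (LinearMap.range N) =
      finrank K (W b a (Set.Ici 1)) + finrank K (W b a (Set.Iic (-2))) := by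
    have h1 : LinearMap.range N = Submodule.map N (W b a (Set.Ici 1)) ⊔ W b a (Set.Iic (-2)) := by
      rw [← hQ, ← Submodule.map_sup, W_sup, LinearMap.range_eq_map]
      congr 1
      rw [← W_univ b a]
      congr 1
      ext r
      simp only [Set.mem_univ, Set.mem_union, Set.mem_Ici, Set.mem_Iic, true_iff]
      omega
    have h2 : Submodule.map N (W b a (Set.Ici 1)) ⊓ W b a (Set.Iic (-2)) = ⊥ := by
      rw [eq_bot_iff, ← W_inf b a (Set.Ici (-1)) (Set.Iic (-2)) (by
        rw [Set.disjoint_left]
        intro r hr hr2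
        rw [Set.mem_Ici] at hr
        rw [Set.mem_Iic] at hr2
        omega)]
      exact inf_le_inf_right _ hP
    have h3 := Submodule.finrank_sup_add_finrank_inf_eq (Submodule.map N (W b a (Set.Ici 1)))
      (W b a (Set.Iic (-2)))
    rw [h2, finrank_bot, add_zero] at h3
    rw [h1, h3, hfP]
  have hrn := LinearMap.finrank_range_add_finrank_ker N
  -- the total dimension
  have hsum : ∀ S T : Set ℤ, Disjoint S T → finrank K (W b a (S ∪ T)) =
      finrank K (W b a S) + finrank K (W b a T) := by
    intro S T hST
    have h3 := Submodule.finrank_sup_add_finrank_inf_eq (W b a S) (W b a T)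
    rw [W_inf b a S T hST, finrank_bot, add_zero, W_sup] at h3
    exact h3
  have htot : finrank K V = finrank K (W b a (Set.Ici 1)) + finrank K (W b a (Set.Iic (-2))) +
      (finrank K (W b a {0}) + finrank K (W b a {-1})) := by
    rw [← finrank_top K V, ← W_univ b a, ← hsum _ _ (by
        rw [Set.disjoint_left]
        intro r hr hr2
        rw [Set.mem_Ici] at hr
        rw [Set.mem_Iic] at hr2
        omega),
      ← hsum {0} {-1} (by simp), ← hsum _ _ (by
        rw [Set.disjoint_left]
        intro r hr hr2
        simp only [Set.mem_union, Set.mem_Ici, Set.mem_Iic, Set.mem_singleton_iff] at hr hr2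
        omega)]
    have huniv : (Set.univ : Set ℤ) = Set.Ici 1 ∪ Set.Iic (-2) ∪ ({0} ∪ {-1}) := by
      ext r
      simp only [Set.mem_univ, Set.mem_union, Set.mem_Ici, Set.mem_Iic, Set.mem_singleton_iff,
        true_iff]
      omega
    rw [← huniv]
  -- the weights one and minus one
  have hone : finrank K (W b a {1}) = finrank K (W b a {-1}) := by
    have hmap : Submodule.map N (W b a {1}) = W b a {-1} := by
      apply le_antisymm
      · rw [W, Submodule.map_span_le]
        rintro _ ⟨i, hi, rfl⟩
        have hi' : a i = 1 := hi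
        have := hNW i
        rw [hi'] at this
        exact this
      · intro y hy
        rw [mem_W_single b a h H.wt] at hy
        obtain ⟨x, hx, hNx⟩ := (hL K V N ι b a e h H 1).2 y (by rw [hy]; push_cast; rfl)
        refine ⟨x, ?_, by simpa using hNx⟩
        rw [SetLike.mem_coe, mem_W_single b a h H.wt, hx]
        push_cast; rfl
    rw [← hmap, ← LinearMap.range_domRestrict]
    symm
    apply LinearMap.finrank_range_of_inj
    rw [← LinearMap.ker_eq_bot, LinearMap.ker_eq_bot']
    rintro ⟨x, hx⟩ h0
    refine Subtype.ext (hinj x (W_mono b a ?_ hx) h0)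
    intro r hr
    rw [Set.mem_singleton_iff] at hr
    rw [Set.mem_Ici, hr]
  have hfin : finrank K (LinearMap.ker N) = finrank K (W b a ({0} ∪ {1})) := by
    rw [hsum {0} {1} (by simp), hone]
    omega
  rw [hfin, finrank_W]
  rfl

end Pool.Agent.Y954.MW
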